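import Pool.Agent.H14.Alm.Final
import Pool.Agent.H14.Alm.RLarge

/-!
# Lieb's permanent dominance for almost all irreducible characters

For every `δ > 0` the irreducible characters of `S_n` which violate Lieb's inequality for at least
one positive semidefinite matrix have total Plancherel mass at most `δ`, for all `n ≥ n₀(δ)`; the same
for `A_n` and for all subgroups with large conjugacy classes.
-/

set_option autoImplicit false

namespace Pool.Agent.Results.MP_452fea_co.AlmostAllImmanants

open Pool.Agent.H14.Alm CategoryTheory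
open scoped ComplexOrder

/-- Let `C ≥ 1` and `δ > 0`. For all large `n` and all subgroups `H` of `S_n` with large classes
(constant `C`): pairwise non-isomorphic irreducible representations of `H`, each of which violates
Lieb's inequality for some positive semidefinite matrix, have `∑ dim² ≤ δ |H|`. The subgroups of index
at most `2` (that is `S_n` and `A_n`) have large classes with the constant `4`. -/
theorem result :
    (∀ C δ : ℝ, 1 ≤ C → 0 < δ → ∃ n₀ : ℕ, ∀ n : ℕ, n₀ ≤ n →
      ∀ H : Subgroup (Equiv.Perm (Fin n)), Large C H →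
      ∀ (m : ℕ) (V : Fin m → FDRep ℂ H),
      (∀ i, Simple (V i)) → (∀ i j, i ≠ j → IsEmpty (V i ≅ V j)) →
      (∀ i, ∃ A : Matrix (Fin n) (Fin n) ℂ, A.PosSemidef ∧
        ¬ (((V i).character 1)⁻¹ * ∑ᶠ σ : H,
          (V i).character σ * ∏ k, A k ((σ : Equiv.Perm (Fin n)) k) ≤ A.permanent)) →
      ∑ i, (Module.finrank ℂ (V i) : ℝ) ^ 2 ≤ δ * Nat.card H) ∧
    (∀ (n : ℕ) (H : Subgroup (Equiv.Perm (Fin n))), H.index ≤ 2 → Large 4 H) :=
  ⟨almost_all, fun _ H hH => large_of_index H hH⟩

end Pool.Agent.Results.MP_452fea_co.AlmostAllImmanants
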