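import Mathlib
import Pool.Agent.H20.Lieb.Main

set_option autoImplicit false

namespace Pool.Agent.Results.MP_452fea_co.CycleWeights

open scoped ComplexOrder

/-- Permanent dominance, for all characters and all positive semidefinite matrices, for every
subgroup `H` of `S_n` that is small compared with the cycle structure of its elements:
(1) if the sum over the nonidentity `σ` in `H` of `1 / (w(σ) - 1)` is at most `1`, where `w(σ)` is
the product of `U(k)` over the lengths `k` of the nontrivial cycles of `σ`; in particular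
(2) if every nonidentity element of `H` moves at least `m` points and `|H| ^ 7 ≤ 8 ^ m`. -/
theorem result :
    (∀ (n : ℕ) (H : Subgroup (Equiv.Perm (Fin n))),
      (∑ᶠ σ : H, (if (σ : Equiv.Perm (Fin n)) = 1 then (0 : ℝ) else
        1 / (((((σ : Equiv.Perm (Fin n)).cycleType.map Pool.Agent.H20.Lieb.U).prod : ℕ) : ℝ)
          - 1)) ≤ 1) →
      ∀ (A : Matrix (Fin n) (Fin n) ℂ), A.PosSemidef →
      (∑ᶠ σ : H, ∏ i, ‖A i ((σ : Equiv.Perm (Fin n)) i)‖ ≤ (A.permanent).re) ∧
      ∀ V : FDRep ℂ H,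
        (V.character 1)⁻¹ * ∑ᶠ σ : H, V.character σ * ∏ i, A i ((σ : Equiv.Perm (Fin n)) i) ≤
          A.permanent) ∧
    (∀ (n m : ℕ) (H : Subgroup (Equiv.Perm (Fin n))),
      (∀ σ : H, (σ : Equiv.Perm (Fin n)) ≠ 1 → m ≤ (σ : Equiv.Perm (Fin n)).support.card) →
      Nat.card H ^ 7 ≤ 8 ^ m →
      ∀ (A : Matrix (Fin n) (Fin n) ℂ), A.PosSemidef →
      (∑ᶠ σ : H, ∏ i, ‖A i ((σ : Equiv.Perm (Fin n)) i)‖ ≤ (A.permanent).re) ∧
      ∀ V : FDRep ℂ H,
        (V.character 1)⁻¹ * ∑ᶠ σ : H, V.character σ * ∏ i, A i ((σ : Equiv.Perm (Fin n)) i) ≤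
          A.permanent) :=
  ⟨fun _ H hsum _ hA =>
    ⟨Pool.Agent.H20.Lieb.sum_norm_le (Pool.Agent.H20.Lieb.dominated_of_sum H hsum) hA,
      fun V => Pool.Agent.H20.Lieb.dominance_of_dominated
        (Pool.Agent.H20.Lieb.dominated_of_sum H hsum) V hA⟩,
   fun _ m H hm hcard _ hA =>
    ⟨Pool.Agent.H20.Lieb.sum_norm_le (Pool.Agent.H20.Lieb.dominated_of_card H m hm hcard) hA,
      fun V => Pool.Agent.H20.Lieb.dominance_of_dominated
        (Pool.Agent.H20.Lieb.dominated_of_card H m hm hcard) V hA⟩⟩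

end Pool.Agent.Results.MP_452fea_co.CycleWeights
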