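import Mathlib
import Pool.Agent.H20.Lieb.Main

set_option autoImplicit false

namespace Pool.Agent.Results.MP_452fea_co.NormalStabilizers

open scoped ComplexOrder

/-- Permanent dominance for every subgroup `H` of `S_n` all of whose point stabilizers are normal
in `H` (for example `H` abelian, or `H` acting freely, such as the regular representation of any
finite group), for every character of `H` and every positive semidefinite matrix. In fact even
the sum of the absolute values of the diagonal products over `H` is at most the permanent. -/
theorem result (n : ℕ) (H : Subgroup (Equiv.Perm (Fin n)))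
    (hH : ∀ x : Fin n, (MulAction.stabilizer H x).Normal)
    (A : Matrix (Fin n) (Fin n) ℂ) (hA : A.PosSemidef) :
    (∑ᶠ σ : H, ∏ i, ‖A i ((σ : Equiv.Perm (Fin n)) i)‖ ≤ (A.permanent).re) ∧
    ∀ V : FDRep ℂ H,
      (V.character 1)⁻¹ * ∑ᶠ σ : H, V.character σ * ∏ i, A i ((σ : Equiv.Perm (Fin n)) i) ≤
        A.permanent :=
  ⟨Pool.Agent.H20.Lieb.sum_norm_le (Pool.Agent.H20.Lieb.dominated_of_normal H hH) hA,
    fun V => Pool.Agent.H20.Lieb.dominance_of_dominated
      (Pool.Agent.H20.Lieb.dominated_of_normal H hH) V hA⟩

end Pool.Agent.Results.MP_452fea_co.NormalStabilizers
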