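import Mathlib
import Pool.Agent.H14.Prm.Crit

set_option autoImplicit false

namespace Pool.Agent.Results.MP_452fea_co.PrimitiveBlocks

open scoped ComplexOrder
open Pool.Agent.H14.Prm (LargeBlocks HasThreeCycles)

/-- A special case of `result` (with a single block), spelled out: permanent dominance for all
primitive groups of degree `n ≥ 2 ^ 128` except the alternating and the symmetric group. -/
theorem primitive (n : ℕ) (hn : 2 ^ 128 ≤ n) (H : Subgroup (Equiv.Perm (Fin n)))
    (hprim : MulAction.IsPreprimitive H (Fin n)) (hAlt : ¬ HasThreeCycles H)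
    (A : Matrix (Fin n) (Fin n) ℂ) (hA : A.PosSemidef) :
    (∑ᶠ σ : H, ∏ i, ‖A i ((σ : Equiv.Perm (Fin n)) i)‖ ≤ (A.permanent).re) ∧
    ∀ V : FDRep ℂ H,
      (V.character 1)⁻¹ * ∑ᶠ σ : H, V.character σ * ∏ i, A i ((σ : Equiv.Perm (Fin n)) i) ≤
        A.permanent :=
  have hdom := Pool.Agent.H14.Prm.dominated_of_primitive n H hprim
    (fun hle => hAlt (fun τ hτ => Pool.Agent.H14.Prm.alt_of_three H hle τ hτ)) hn
  ⟨Pool.Agent.H20.Lieb.sum_norm_le hdom hA,
    fun V => Pool.Agent.H20.Lieb.dominance_of_dominated hdom V hA⟩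

/-- Permanent dominance, for all characters and all positive semidefinite matrices, for every
subgroup `H` of `S_n` each of whose points `x` is fixed by `H` or satisfies `LargeBlocks H x`. -/
theorem result (n : ℕ) (H : Subgroup (Equiv.Perm (Fin n)))
    (hH : ∀ x : Fin n, (∀ g ∈ H, g x = x) ∨ LargeBlocks H x)
    (A : Matrix (Fin n) (Fin n) ℂ) (hA : A.PosSemidef) :
    (∑ᶠ σ : H, ∏ i, ‖A i ((σ : Equiv.Perm (Fin n)) i)‖ ≤ (A.permanent).re) ∧
    ∀ V : FDRep ℂ H,
      (V.character 1)⁻¹ * ∑ᶠ σ : H, V.character σ * ∏ i, A i ((σ : Equiv.Perm (Fin n)) i) ≤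
        A.permanent := by
  have hdom : Pool.Agent.H20.Lieb.Dominated H := by
    apply Pool.Agent.H14.Prm.dominated_of_orbits
    intro x
    rcases hH x with hx | hx
    · left
      intro g hg y _ _ z hz
      obtain ⟨k, rfl⟩ := MulAction.mem_orbit_iff.1 hz
      change g ((k : Equiv.Perm (Fin n)) x) = (k : Equiv.Perm (Fin n)) x
      rw [hx k k.2, hx g hg]
    · exact Or.inr hx
  exact ⟨Pool.Agent.H20.Lieb.sum_norm_le hdom hA,
    fun V => Pool.Agent.H20.Lieb.dominance_of_dominated hdom V hA⟩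

end Pool.Agent.Results.MP_452fea_co.PrimitiveBlocks
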